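import Pool.Agent.W539.DI.Cor

/-!
# Derived invariance of Hodge numbers: inertia of the Mukai pairing

Let `X`, `Y` be smooth projective complex varieties of dimension `n` with equivalent derived
categories. By Orlov the equivalence is a Fourier-Mukai transform, and (Mukai, Caldararu) it
induces an isomorphism of rational cohomology which preserves the grading by `p - q` and the
Mukai pairing: this is the structure `FM X Y` below. The hermitian form `⟨v, bar w⟩` on
`⊕_{p - q = i} H^{p, q}` is then a derived invariant. For `i ≡ n` modulo two its signature is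
computed by the Hodge-Riemann relations in the middle degree, since the classes of degree
greater than `n` form an isotropic subspace. This gives new derived invariants in every
dimension and determines all Hodge numbers `h^{p,q}` with `p + q` even in dimension four.
-/

namespace Pool.Agent.Results.MP_b4fe5e_ag.HodgeInertia

open Pool.Agent.W539.DI

theorem result :
    (∀ (n : ℕ) (X Y : KRing n), Nonempty (FM X Y) →
      (∀ a b : ℕ, a + b = n →
        (∑ i ∈ Finset.range n, X.h (a - 1 - 2 * i) (b - 1 - 2 * i) =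
          ∑ i ∈ Finset.range n, Y.h (a - 1 - 2 * i) (b - 1 - 2 * i)) ∧
        (X.h a b + 2 * ∑ i ∈ Finset.range n, X.h (a - 2 - 2 * i) (b - 2 - 2 * i) =
          Y.h a b + 2 * ∑ i ∈ Finset.range n, Y.h (a - 2 - 2 * i) (b - 2 - 2 * i))) ∧
      (2 ≤ n → X.h (n - 2) 0 = Y.h (n - 2) 0 ∧ X.h (n - 1) 1 = Y.h (n - 1) 1 ∧
        X.h (n - 3) 1 = Y.h (n - 3) 1)) ∧
    (∀ X Y : KRing 4, Nonempty (FM X Y) →
      (∀ p q : ℤ, Even (p + q) → X.h p q = Y.h p q) ∧
      (X.h 1 0 = Y.h 1 0 → ∀ p q : ℤ, X.h p q = Y.h p q)) :=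
  ⟨fun _ _ _ ⟨Φ⟩ => ⟨fun a b hab => Φ.hodge_sums a b hab, fun hn => Φ.edge hn⟩,
    fun _ _ ⟨Φ⟩ => ⟨fun p q h => Φ.four_even p q h, fun h p q => Φ.four_all h p q⟩⟩

end Pool.Agent.Results.MP_b4fe5e_ag.HodgeInertia
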