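import Pool.Agent.W539.DI.Low

/-!
# Derived invariance of Hodge numbers: semiample canonical bundle

Let `X`, `Y` be smooth projective complex varieties of dimension `n` with equivalent derived
categories. The signature argument of the file `HodgeInertia` shows that the Hodge numbers of
degree at most `n - 3` determine the others. Here this is combined with the theorem of Toda that
corresponding pluricanonical divisors `D_m ∈ |mK|` of `X` and `Y` are again derived equivalent:

* if `K` or `-K` is semiample, then `c₁c₄` of a fivefold is determined by the Euler numbers of the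
  `D_m`, and `χ(O)` by their Euler characteristics, which are derived invariants of fourfolds.
  Together with the formula of Libgober and Wood this gives all Hodge numbers of fivefolds;
* in a tower of pluricanonical divisors whose restriction maps are isomorphisms in the degrees at
  most `dim - 3` all Hodge numbers agree, in every dimension.
-/

namespace Pool.Agent.Results.MP_b4fe5e_ag.SemiampleCanonical

open Pool.Agent.W539.DI

theorem result :
    (∀ (n : ℕ) (X Y : KRing n), Nonempty (FM X Y) →
      (∀ p q : ℤ, p + q ≤ n - 3 → X.h p q = Y.h p q) → ∀ p q : ℤ, X.h p q = Y.h p q) ∧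
    (∀ (X Y : KRing 5) (a : ℚ) (r : ℕ → ℕ) (S : SemiAmp X a r) (T : SemiAmp Y a r),
      Nonempty (FM X Y) → X.h 1 0 = Y.h 1 0 → a ≠ 0 →
      (∀ m, 1 ≤ m → ∀ i, Nonempty (FM (S.D m i) (T.D m i)) ∧
        (S.D m i).h 1 0 = (T.D m i).h 1 0) →
      ∀ p q : ℤ, X.h p q = Y.h p q) ∧
    (∀ (n : ℕ) (X Y : KRing n), Tower n X Y → ∀ p q : ℤ, X.h p q = Y.h p q) :=
  ⟨fun _ _ _ ⟨Φ⟩ h => Φ.low h,
    fun _ _ _ _ S T ⟨Φ⟩ h10 ha h => Φ.five_semiample h10 ha S T h,
    fun _ _ _ h => h.eq⟩

end Pool.Agent.Results.MP_b4fe5e_ag.SemiampleCanonical
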